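import Pool.Agent.Helper20.PS.Comb

set_option autoImplicit false

/-! Module C0 (helper31), for `n ≥ 2`. -/

namespace Pool.Agent.Helper20.PS.C0

open Pool.Agent.H29R2.MG Pool.Agent.Q290.SC
open Pool.Agent.H798R3.MG Pool.Agent.TH35.MG Pool.Agent.Q290.MG
open Pool.Agent.Helper20.PR Pool.Agent.Helper20.PS.Comb
open Pool.Agent.Helper20.PS.Nc4 (S_NC4)

/-- as `S_C0`, for `n ≥ 2` -/
def S_C0' : Prop := ∀ (n : ℕ), 2 ≤ n → ∀ t : SurfaceGroup (n + 1) → VV n, IsTau n t →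
  ∀ N : Subgroup (MulAut (SurfaceGroup (n + 1))), N.Normal → N.FiniteIndex →
  ∀ S : Finset (Ch (n + 1)), chi0 n ∉ S →
  ∃ m : ℤ, 1 ≤ m ∧ ∀ M ∈ Ga n m, ∃ ν ∈ N, ν ∈ L6 (n + 1) ∧ (∀ χ' ∈ S, Tr χ' ν) ∧ A0 t ν M

theorem main (hn : S_NC4) (hr : S_REAL) (_hc : S_CR0) (h1 : S_P1) (ht : S_P1T) : S_C0' := by
  intro n hn3 t hτ N hN hNf S hS
  obtain ⟨m, hm, h⟩ := comb (g := n) hn3 hn (L6 (n + 1)) N hN hNf (fun χ : Ch (n + 1) => KT χ)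
    (fun χ l hl k hk => KT_conj χ l hl k hk) (fun φ M => A0 t φ M) (fun y _ => rfl)
    (fun a _ b hb A B hA hB y hy => by
      rw [MulAut.mul_apply, hA (b y) (by rw [ch_L6 _ hb]; exact hy), hB y hy, ac_mul])
    (fun a ha A hA y hy => by
      have h2 := hA (a⁻¹ y) (by rw [ch_L6 _ (inv_mem ha)]; exact hy)
      rw [MulAut.apply_inv_self] at h2
      rw [h2, ac_self_inv])
    (fun M hM => hr n (by omega) t hτ M hM) S
    (fun χ' hχ' => by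
      by_cases h0 : χ' = 1
      · obtain ⟨φ, hφ, hT, w, w', s, h2, h3, h4⟩ := ht n (by omega) t hτ
        exact ⟨φ, hφ, ⟨hφ, by rw [h0]; exact hT⟩, w, w', s, h2, h3, h4⟩
      · obtain ⟨φ, hφ, hT, w, w', s, h2, h3, h4⟩ := h1 n (by omega) t hτ χ' h0 (by
          rintro rfl
          exact hS hχ')
        exact ⟨φ, hφ, ⟨hφ, hT⟩, w, w', s, h2, h3, h4⟩)
  refine ⟨m, hm, fun M hM => ?_⟩
  obtain ⟨ν, n1, n2, n3, n4⟩ := h M hM
  exact ⟨ν, n1, n2, fun χ hχ => (n3 χ hχ).2, n4⟩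

end Pool.Agent.Helper20.PS.C0
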