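import Pool.Agent.Helper20.PS.Comb

set_option autoImplicit false

/-! Module C1 (helper31). -/

namespace Pool.Agent.Helper20.PS.C1

open Pool.Agent.H29R2.MG Pool.Agent.Q290.SC
open Pool.Agent.H798R3.MG Pool.Agent.TH35.MG Pool.Agent.Q290.MG
open Pool.Agent.Helper20.PR Pool.Agent.Helper20.PS.Comb
open Pool.Agent.Helper20.PS.Nc4 (S_NC4)

theorem main (hn : S_NC4) (h2 : S_P2) : S_C1 := by
  intro g hg N hN hNf S hS
  obtain ⟨m, hm, h⟩ := comb (g := g) (by omega) hn (L6 g) N hN hNf (fun χ : Ch g => KT χ)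
    (fun χ l hl k hk => KT_conj χ l hl k hk) (fun φ M => Act φ M) act_one
    (fun a _ b _ A B hA hB => hA.mul hB)
    (fun a _ A hA => hA.inv)
    (fun M hM => by
      obtain ⟨φ, hφ⟩ := surj all_gen (by omega) M
      refine ⟨φ, fun x j => ?_, hφ⟩
      rw [hφ x]
      exact hM _ _) S
    (fun χ' hχ' => by
      obtain ⟨φ, hφ, hT, w, w', s, h2, h3, h4⟩ := h2 g (by omega) χ' (by
        rintro rfl
        exact hS hχ')
      exact ⟨φ, hφ, ⟨hφ, hT⟩, w, w', s, h2, h3, h4⟩)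
  refine ⟨m, hm, fun M hM => ?_⟩
  obtain ⟨ν, n1, n2, n3, n4⟩ := h M hM
  exact ⟨ν, n1, n2, fun χ hχ => (n3 χ hχ).2, n4⟩

end Pool.Agent.Helper20.PS.C1
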