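import Pool.Agent.Helper20.PS.Csp4
import Pool.Agent.Helper20.PR.Num2

set_option autoImplicit false

/-! Subgroups of `Sp_{2g}(ℤ)`, `g ≥ 2`, normalized by a congruence subgroup and containing a
transvection contain a congruence subgroup. After the module NC by helper85. -/

namespace Pool.Agent.Helper20.PS.Nc4

open Pool.Agent.H29R2.MG Pool.Agent.Q290.SC Pool.Agent.Helper20.PR Pool.Agent.Helper20.PR.Nc

variable {g : ℕ}

/-- a subgroup normalized by a congruence subgroup and containing a transvection contains a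
congruence subgroup; `g ≥ 2` -/
def S_NC4 : Prop := ∀ (g : ℕ), 2 ≤ g → ∀ (U : Subgroup (SpG g)) (q : ℤ), 1 ≤ q →
  (∀ R ∈ Ga g q, ∀ X ∈ U, R * X * R⁻¹ ∈ U) →
  (∃ (w w' : VV g) (s : ℤ), om w w' = 1 ∧ s ≠ 0 ∧ T w s ∈ U) →
  ∃ m : ℤ, 1 ≤ m ∧ Ga g m ≤ U

theorem off_pr' (i : Fin g) (v : VV g) : Off i (v - pr i v) := by
  unfold Off pr ve vf
  simp

/-- `E x y (q K) ∈ U` for a basis vector `x` of the handle `i` -/
theorem stepE {U : Subgroup (SpG g)} {q : ℤ} (hU : ∀ R ∈ Ga g q, ∀ X ∈ U, R * X * R⁻¹ ∈ U)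
    {K : ℤ} {x x' y : VV g} (hxy : om x y = 0) (hxy' : om x' y = 0) (hxx : om x' x = 1)
    (hx : T x K ∈ U) (hy : T y K ∈ U) : E x y (q * K) ∈ U := by
  have hR : E x' y q ∈ Ga g q := KS_Ga (E_mem (sup_univ x') (sup_univ y) (dvd_refl q))
  have h1 := hU _ hR _ hx
  have hyx : om y x = 0 := by rw [om_swap, hxy, neg_zero]
  rw [T_conj, ac_E hxy', hyx, hxx, zero_smul, add_zero, one_smul] at h1
  have h2 : E x y (q * K) = T (x + q • y) K * (T x K)⁻¹ * (T y K ^ (q ^ 2))⁻¹ := by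
    rw [← T_neg, T_zpow, ← T_neg]
    apply sp_ext
    intro z
    rw [ac_E hxy, ac_mul, ac_mul, ac_T, ac_T, ac_T]
    simp only [om_add_right, om_add_left, om_smul_right, om_smul_left, om_self, hxy, hyx,
      mul_zero, add_zero]
    funext j
    simp only [Pi.add_apply, Pi.smul_apply, smul_eq_mul]
    ring
  rw [h2]
  exact mul_mem (mul_mem h1 (inv_mem hx)) (inv_mem (zpow_mem hy _))

theorem stepV {U : Subgroup (SpG g)} {q : ℤ} (hU : ∀ R ∈ Ga g q, ∀ X ∈ U, R * X * R⁻¹ ∈ U)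
    {i j : Fin g} (hij : i ≠ j)
    {K : ℤ} (hi : ∀ u, Off i u → T u K ∈ U) (hj : ∀ u, Off j u → T u K ∈ U) (v : VV g) :
    T v (q * K) ∈ U := by
  obtain ⟨y, hy⟩ : ∃ y, y = v - pr i v := ⟨_, rfl⟩
  have hv : v = v (Sum.inl i) • ve i + v (Sum.inr i) • vf i + y := by
    rw [hy]; unfold pr; abel
  have hyo : Off i y := by rw [hy]; exact off_pr' i v
  have oe : om (ve i) y = 0 := by rw [om_ve]; exact hyo.2
  have of : om (vf i) y = 0 := by rw [om_vf, hyo.1, neg_zero]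
  have oe' : om y (ve i) = 0 := by rw [om_swap, oe, neg_zero]
  have of' : om y (vf i) = 0 := by rw [om_swap, of, neg_zero]
  have ef : om (ve i) (vf i : VV g) = 1 := by rw [om_ve]; simp [vf]
  have fe : om (vf i) (ve i : VV g) = -1 := by rw [om_vf]; simp [ve]
  have off_ve' : Off j (ve i : VV g) := by unfold Off ve; simp [hij.symm]
  have off_vf' : Off j (vf i : VV g) := by unfold Off vf; simp [hij.symm]
  have E1 : E (ve i) y (q * K) ∈ U := by
    refine stepE hU (x' := -vf i) oe ?_ ?_ (hj _ off_ve') (hi _ hyo)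
    · rw [om_neg_left, of, neg_zero]
    · rw [om_neg_left, fe, neg_neg]
  have E2 : E (vf i) y (q * K) ∈ U :=
    stepE hU (x' := ve i) of oe ef (hj _ off_vf') (hi _ hyo)
  obtain ⟨a, ha⟩ : ∃ a, a = v (Sum.inl i) := ⟨_, rfl⟩
  obtain ⟨b, hb⟩ : ∃ b, b = v (Sum.inr i) := ⟨_, rfl⟩
  rw [← ha, ← hb] at hv
  have hE : ∀ (x : VV g) (hx : om x y = 0) (t : ℤ) (n : ℤ), E x y t ^ n = E x y (n * t) := by
    intro x hx t n
    have hadd : ∀ s t : ℤ, E x y (s + t) = E x y s * E x y t := by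
      intro s t
      have hx' : om y x = 0 := by rw [om_swap, hx, neg_zero]
      apply sp_ext
      intro z
      rw [ac_mul, ac_E hx, ac_E hx, ac_E hx]
      simp only [om_add_right, om_smul_right, om_self, hx, hx', mul_zero, add_zero]
      funext j
      simp only [Pi.add_apply, Pi.smul_apply, smul_eq_mul]
      ring
    have h0 : E x y 0 = 1 := by
      apply sp_ext
      intro z
      rw [ac_E hx, zero_smul, add_zero, ac_one]
    let F : Multiplicative ℤ →* SpG g :=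
      { toFun := fun s => E x y (Multiplicative.toAdd s)
        map_one' := h0
        map_mul' := fun s t => hadd _ _ }
    have h1 : F (Multiplicative.ofAdd t ^ n) = F (Multiplicative.ofAdd t) ^ n := map_zpow F _ n
    have h2 : F (Multiplicative.ofAdd t ^ n) = E x y (n * t) := by
      show E x y (Multiplicative.toAdd (Multiplicative.ofAdd t ^ n)) = _
      rw [toAdd_zpow, toAdd_ofAdd, smul_eq_mul]
    rw [← h2, h1]
    rfl
  have hid : T v (q * K) = T (a • ve i + b • vf i) (q * K) * E (ve i) y (a * (q * K)) *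
      E (vf i) y (b * (q * K)) * T y ((q * K) * (1 - q * K * (a * b))) := by
    have hv' : v = a • ve i + b • vf i + y := hv
    rw [hv']
    apply sp_ext
    intro z
    rw [ac_mul, ac_mul, ac_mul, ac_T, ac_T, ac_T, ac_E oe, ac_E of]
    simp only [om_add_right, om_add_left, om_smul_right, om_smul_left, om_self, oe, of, oe', of',
      ef, fe, mul_zero, add_zero, zero_add]
    funext j
    simp only [Pi.add_apply, Pi.smul_apply, smul_eq_mul]
    ring
  rw [hid, ← hE _ oe, ← hE _ of]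
  refine mul_mem (mul_mem (mul_mem ?_ (zpow_mem E1 _)) (zpow_mem E2 _)) ?_
  · rw [← T_zpow]
    refine zpow_mem (hj _ ?_) _
    have := off_pr hij v
    unfold pr at this
    rw [← ha, ← hb] at this
    exact this
  · have e : (q * K) * (1 - q * K * (a * b)) = (q * (1 - q * K * (a * b))) * K := by ring
    rw [e, ← T_zpow]
    exact zpow_mem (hi _ hyo) _

/-- the case of the transvection of a basis vector -/
theorem nc0 (hg : 2 ≤ g) {U : Subgroup (SpG g)} {q : ℤ} (hq : 1 ≤ q)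
    (hU : ∀ R ∈ Ga g q, ∀ X ∈ U, R * X * R⁻¹ ∈ U) {s : ℤ} (hs0 : s ≠ 0)
    (hs : T (ve ⟨0, by omega⟩) s ∈ U) : ∃ m : ℤ, 1 ≤ m ∧ Ga g m ≤ U := by
  obtain ⟨i, hi⟩ : ∃ i : Fin g, i = ⟨0, by omega⟩ := ⟨_, rfl⟩
  obtain ⟨j, hj⟩ : ∃ j : Fin g, j = ⟨1, by omega⟩ := ⟨_, rfl⟩
  have hij : i ≠ j := by rw [hi, hj]; simp
  rw [← hi] at hs
  have a1 : ∀ u, Off i u → T u (2 * s * q ^ 2) ∈ U := fun u hu => stepA hU hs hu
  have a2 : ∀ u, Off j u → T u (2 * (2 * s * q ^ 2) * q ^ 2) ∈ U := fun u hu =>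
    stepA hU (a1 _ (off_ve hij.symm)) hu
  have a4 : ∀ u, Off i u → T u (2 * (2 * s * q ^ 2) * q ^ 2) ∈ U := fun u hu => by
    have e : 2 * (2 * s * q ^ 2) * q ^ 2 = (2 * q ^ 2) * (2 * s * q ^ 2) := by ring
    rw [e, ← T_zpow]
    exact zpow_mem (a1 u hu) _
  obtain ⟨K, hK⟩ : ∃ K : ℤ, K = q * (2 * (2 * s * q ^ 2) * q ^ 2) := ⟨_, rfl⟩
  have hK0 : K ≠ 0 := by
    have hq0 : q ≠ 0 := by omega
    rw [hK]; positivity
  have hall : ∀ v t, K ∣ t → T v t ∈ U := by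
    rintro v t ⟨c, rfl⟩
    rw [mul_comm, ← T_zpow, hK]
    exact zpow_mem (stepV hU hij a4 a2 v) _
  obtain ⟨m, hm⟩ : ∃ m : ℤ, m = 4 * |K| := ⟨_, rfl⟩
  have hm1 : 1 ≤ m := by
    have := abs_pos.2 hK0
    omega
  have hKm : K ∣ m := by
    rw [hm]
    exact Dvd.dvd.mul_left ((dvd_abs K K).2 (dvd_refl K)) 4
  refine ⟨m, hm1, ?_⟩
  obtain ⟨P, hP⟩ : ∃ P : Subgroup (SpG g), P = Subgroup.closure {X | ∃ v t, m ∣ t ∧ X = T v t} :=
    ⟨_, rfl⟩
  have hPn : P.Normal := by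
    refine ⟨fun X hX R => ?_⟩
    rw [hP] at hX ⊢
    induction hX using Subgroup.closure_induction with
    | mem x hx =>
      obtain ⟨v, t, ht, rfl⟩ := hx
      rw [T_conj]
      exact Subgroup.subset_closure ⟨_, _, ht, rfl⟩
    | one => rw [mul_one, mul_inv_cancel]; exact one_mem _
    | mul x y _ _ hx hy =>
      have e : R * (x * y) * R⁻¹ = (R * x * R⁻¹) * (R * y * R⁻¹) := by group
      rw [e]; exact mul_mem hx hy
    | inv x _ hx =>
      have e : R * x⁻¹ * R⁻¹ = (R * x * R⁻¹)⁻¹ := by group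
      rw [e]; exact inv_mem hx
  have hPU : P ≤ U := by
    rw [hP, Subgroup.closure_le]
    rintro _ ⟨v, t, ht, rfl⟩
    exact hall v t (hKm.trans ht)
  intro M hM
  apply hPU
  have h1 := Csp4.csp Num2.main g hg (SpG g ⧸ P) (QuotientGroup.mk' P) m hm1 ⟨|K|, hm⟩ (fun v t ht => by
    rw [QuotientGroup.mk'_apply, QuotientGroup.eq_one_iff, hP]
    exact Subgroup.subset_closure ⟨v, t, ht, rfl⟩) M hM
  rwa [QuotientGroup.mk'_apply, QuotientGroup.eq_one_iff] at h1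

theorem main : S_NC4 := by
  intro g hg U q hq hU ⟨w, w', s, hw, hs0, hs⟩
  obtain ⟨X, -, hX⟩ := Pool.Agent.Q158.SC.tr g Finset.univ ⟨0, by omega⟩ (Finset.mem_univ _) w
    (sup_univ w) ⟨w', hw⟩
  have h1 : ∀ Y, Y ∈ U.map (MulAut.conj X).toMonoidHom ↔ X⁻¹ * Y * X ∈ U := by
    intro Y
    rw [Subgroup.mem_map]
    constructor
    · rintro ⟨Z, hZ, rfl⟩
      have e : X⁻¹ * ((MulAut.conj X).toMonoidHom Z) * X = Z := by
        show X⁻¹ * (X * Z * X⁻¹) * X = Z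
        group
      rwa [e]
    · intro hY
      refine ⟨_, hY, ?_⟩
      show X * (X⁻¹ * Y * X) * X⁻¹ = Y
      group
  obtain ⟨m, hm, hGa⟩ := nc0 (U := U.map (MulAut.conj X).toMonoidHom) hg hq (fun R hR Y hY => by
    rw [h1] at hY ⊢
    have h2 := ga_conj hR X⁻¹
    rw [inv_inv] at h2
    have h3 := hU _ h2 _ hY
    have e : X⁻¹ * (R * Y * R⁻¹) * X = X⁻¹ * R * X * (X⁻¹ * Y * X) * (X⁻¹ * R * X)⁻¹ := by group
    rwa [e]) hs0 (by
    rw [h1, ← hX, ← T_conj]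
    have e : X⁻¹ * (X * T w s * X⁻¹) * X = T w s := by group
    rwa [e])
  refine ⟨m, hm, fun M hM => ?_⟩
  have h2 := hGa (ga_conj hM X)
  rw [h1] at h2
  have e : X⁻¹ * (X * M * X⁻¹) * X = M := by group
  rwa [e] at h2

end Pool.Agent.Helper20.PS.Nc4
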