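import Pool.Agent.Helper20.PR.Base
import Pool.Agent.Helper20.PS.Nc4

set_option autoImplicit false

/-! The common part of the modules C0 and C1 (helper31), for `g ≥ 2`. -/

namespace Pool.Agent.Helper20.PS.Comb

open Pool.Agent.H29R2.MG Pool.Agent.Q290.SC
open Pool.Agent.H798R3.MG Pool.Agent.TH35.MG Pool.Agent.Q290.MG
open Pool.Agent.Helper20.PR
open Pool.Agent.Helper20.PS.Nc4 (S_NC4)

/-- the commutator of two Eichler transformations -/
theorem comm_E {g : ℕ} (i j : Fin g) (hij : i ≠ j) (m m' : ℤ) :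
    E (ve i) (ve j) m * E (ve i) (vf j) m' * (E (ve i) (ve j) m)⁻¹ * (E (ve i) (vf j) m')⁻¹ =
      T (ve i) (2 * m * m') := by
  have h1 : om (ve i) (ve j : VV g) = 0 := om_ve_ve i j
  have h2 : om (ve i) (vf j : VV g) = 0 := by rw [om_ve_vf, if_neg hij]
  have h3 : om (vf j) (ve i : VV g) = 0 := by rw [om_swap, h2, neg_zero]
  have h4 : om (ve j) (ve i : VV g) = 0 := om_ve_ve j i
  have h5 : om (ve j) (vf j : VV g) = 1 := by rw [om_ve_vf, if_pos rfl]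
  have h6 : om (vf j) (ve j : VV g) = -1 := by rw [om_vf_ve, if_pos rfl]
  have h7 : om (ve i) (ve i : VV g) = 0 := om_self _
  have key : E (ve i) (ve j) m * E (ve i) (vf j) m' =
      T (ve i) (2 * m * m') * (E (ve i) (vf j) m' * E (ve i) (ve j) m) := by
    apply sp_ext
    intro y
    rw [ac_mul, ac_mul, ac_mul, ac_T, ac_E h1, ac_E h2, ac_E h2, ac_E h1]
    simp only [om_add_right, om_smul_right, h1, h2, h3, h4, h5, h6, h7]
    funext k
    simp only [Pi.add_apply, Pi.smul_apply, smul_eq_mul]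
    ring
  rw [key]
  group

theorem E_Ga {g : ℕ} {u v : VV g} (h : om u v = 0) (t : ℤ) : E u v t ∈ Ga g t := by
  intro x j
  rw [ac_E h]
  simp only [Pi.add_apply, Pi.smul_apply, smul_eq_mul, add_sub_cancel_left]
  exact Dvd.intro _ rfl

theorem T_Ga {g : ℕ} (v : VV g) (t : ℤ) : T v t ∈ Ga g t := by
  intro x j
  rw [ac_T]
  simp only [Pi.add_apply, Pi.smul_apply, smul_eq_mul, add_sub_cancel_left]
  exact Dvd.dvd.mul_right (Dvd.intro _ rfl) _

section Abs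

variable {P ι : Type} [Group P] {g : ℕ}

/-- the matrices realized by elements with conditions -/
def US (L N : Subgroup P) (K : ι → Subgroup P) (R : P → SpG g → Prop)
    (R1 : R 1 1) (Rm : ∀ a ∈ L, ∀ b ∈ L, ∀ A B, R a A → R b B → R (a * b) (A * B))
    (Ri : ∀ a ∈ L, ∀ A, R a A → R a⁻¹ A⁻¹) (S : Finset ι) : Subgroup (SpG g) where
  carrier := {M | ∃ ν, ν ∈ N ∧ ν ∈ L ∧ (∀ i ∈ S, ν ∈ K i) ∧ R ν M}
  one_mem' := ⟨1, one_mem _, one_mem _, fun i _ => one_mem _, R1⟩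
  mul_mem' := by
    rintro A B ⟨a, a1, a2, a3, a4⟩ ⟨b, b1, b2, b3, b4⟩
    exact ⟨a * b, mul_mem a1 b1, mul_mem a2 b2, fun i hi => mul_mem (a3 i hi) (b3 i hi),
      Rm a a2 b b2 A B a4 b4⟩
  inv_mem' := by
    rintro A ⟨a, a1, a2, a3, a4⟩
    exact ⟨a⁻¹, inv_mem a1, inv_mem a2, fun i hi => inv_mem (a3 i hi), Ri a a2 A a4⟩

theorem comb (hg : 2 ≤ g) (hn : S_NC4) (L N : Subgroup P) (hN : N.Normal) (hNf : N.FiniteIndex)
    (K : ι → Subgroup P) (hK : ∀ i, ∀ l ∈ L, ∀ k ∈ K i, l * k * l⁻¹ ∈ K i)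
    (R : P → SpG g → Prop)
    (R1 : R 1 1) (Rm : ∀ a ∈ L, ∀ b ∈ L, ∀ A B, R a A → R b B → R (a * b) (A * B))
    (Ri : ∀ a ∈ L, ∀ A, R a A → R a⁻¹ A⁻¹) (real : ∀ M ∈ Ga g 6, ∃ a ∈ L, R a M)
    (S : Finset ι) (hS : ∀ i ∈ S, ∃ a ∈ L, a ∈ K i ∧ ∃ (w w' : VV g) (s : ℤ), om w w' = 1 ∧ s ≠ 0 ∧
      R a (T w s)) :
    ∃ m : ℤ, 1 ≤ m ∧ ∀ M ∈ Ga g m, ∃ ν ∈ N, ν ∈ L ∧ (∀ i ∈ S, ν ∈ K i) ∧ R ν M := by
  classical
  have hk : (N.index : ℤ) ≠ 0 := by
    have := hNf.index_ne_zero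
    exact_mod_cast this
  have Rp : ∀ a ∈ L, ∀ (w : VV g) (s : ℤ), R a (T w s) → ∀ k : ℕ, R (a ^ k) (T w (k * s)) := by
    intro a ha w s h k
    induction k with
    | zero => rw [pow_zero, Nat.cast_zero, zero_mul, T_zero]; exact R1
    | succ k ih =>
      rw [pow_succ]
      have e : T w (((k + 1 : ℕ) : ℤ) * s) = T w ((k : ℤ) * s) * T w s := by
        rw [← T_add]; congr 1; push_cast; ring
      rw [e]
      exact Rm _ (pow_mem ha k) _ ha _ _ ih h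
  -- normalization
  have hnorm : ∀ S : Finset ι, ∀ X ∈ Ga g 6, ∀ M ∈ US L N K R R1 Rm Ri S,
      X * M * X⁻¹ ∈ US L N K R R1 Rm Ri S := by
    rintro S X hX M ⟨ν, n1, n2, n3, n4⟩
    obtain ⟨a, ha, hR⟩ := real X hX
    refine ⟨a * ν * a⁻¹, hN.conj_mem ν n1 a, mul_mem (mul_mem ha n2) (inv_mem ha),
      fun i hi => hK i a ha ν (n3 i hi), ?_⟩
    exact Rm _ (mul_mem ha n2) _ (inv_mem ha) _ _ (Rm _ ha _ n2 _ _ hR n4) (Ri _ ha _ hR)
  have hone : ∀ (w w' : VV g) (s : ℤ), om w w' = 1 → s ≠ 0 → ∀ S : Finset ι,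
      (∃ a ∈ L, (∀ i ∈ S, a ∈ K i) ∧ R a (T w s)) →
      ∃ m : ℤ, 1 ≤ m ∧ Ga g m ≤ US L N K R R1 Rm Ri S := by
    rintro w w' s hw hs S ⟨a, ha, hi, hR⟩
    refine hn g hg _ 6 (by norm_num) (hnorm S) ⟨w, w', (N.index : ℤ) * s, hw, ?_, ?_⟩
    · exact mul_ne_zero hk hs
    · exact ⟨a ^ N.index, N.pow_index_mem a, pow_mem ha _, fun i hi' => pow_mem (hi i hi') _,
        Rp a ha w s hR _⟩
  have i0 : Fin g := ⟨0, by omega⟩
  have main : ∀ S : Finset ι, (∀ i ∈ S, ∃ a ∈ L, a ∈ K i ∧ ∃ (w w' : VV g) (s : ℤ),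
      om w w' = 1 ∧ s ≠ 0 ∧ R a (T w s)) →
      ∃ m : ℤ, 1 ≤ m ∧ Ga g m ≤ US L N K R R1 Rm Ri S := by
    intro S
    induction S using Finset.induction_on with
    | empty =>
      intro _
      obtain ⟨a, ha, hR⟩ := real (T (ve (⟨0, by omega⟩ : Fin g)) 6) (T_Ga _ _)
      exact hone _ (vf ⟨0, by omega⟩) 6 (by rw [om_ve_vf, if_pos rfl]) (by norm_num) ∅
        ⟨a, ha, fun i hi => absurd hi (Finset.notMem_empty i), hR⟩
    | insert x S hx ih =>
      intro hS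
      obtain ⟨m, hm, hmU⟩ := ih fun i hi => hS i (Finset.mem_insert_of_mem hi)
      obtain ⟨a, ha, hax, w, w', s, hw, hs, hR⟩ := hS x (Finset.mem_insert_self _ _)
      obtain ⟨m', hm', hmU'⟩ := hone w w' s hw hs {x} ⟨a, ha, fun i hi => by
        rw [Finset.mem_singleton] at hi; rw [hi]; exact hax, hR⟩
      have hij : (⟨0, by omega⟩ : Fin g) ≠ ⟨1, by omega⟩ := by
        intro h
        have := congrArg Fin.val h
        simp at this
      obtain ⟨ν, n1, n2, n3, n4⟩ := hmU (E_Ga (u := ve (⟨0, by omega⟩ : Fin g))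
        (v := ve ⟨1, by omega⟩) (om_ve_ve _ _) m)
      obtain ⟨μ, u1, u2, u3, u4⟩ := hmU' (E_Ga (u := ve (⟨0, by omega⟩ : Fin g))
        (v := vf ⟨1, by omega⟩) (by rw [om_ve_vf, if_neg hij]) m')
      have hc := comm_E (⟨0, by omega⟩ : Fin g) ⟨1, by omega⟩ hij m m'
      refine hn g hg _ 6 (by norm_num) (hnorm _) ⟨ve ⟨0, by omega⟩, vf ⟨0, by omega⟩, 2 * m * m',
        by rw [om_ve_vf, if_pos rfl], ?_, ?_⟩
      · have : 0 < m := by omega
        have : 0 < m' := by omega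
        positivity
      · rw [← hc]
        refine ⟨ν * μ * ν⁻¹ * μ⁻¹, ?_, ?_, ?_, ?_⟩
        · exact mul_mem (mul_mem (mul_mem n1 u1) (inv_mem n1)) (inv_mem u1)
        · exact mul_mem (mul_mem (mul_mem n2 u2) (inv_mem n2)) (inv_mem u2)
        · intro i hi
          rw [Finset.mem_insert] at hi
          rcases hi with rfl | hi
          · exact mul_mem (hK _ ν n2 μ (u3 _ (Finset.mem_singleton_self _)))
              (inv_mem (u3 _ (Finset.mem_singleton_self _)))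
          · have e : ν * μ * ν⁻¹ * μ⁻¹ = ν * (μ * ν⁻¹ * μ⁻¹) := by group
            rw [e]
            exact mul_mem (n3 i hi) (hK i μ u2 _ (inv_mem (n3 i hi)))
        · exact Rm _ (mul_mem (mul_mem n2 u2) (inv_mem n2)) _ (inv_mem u2) _ _
            (Rm _ (mul_mem n2 u2) _ (inv_mem n2) _ _ (Rm _ n2 _ u2 _ _ n4 u4) (Ri _ n2 _ n4))
            (Ri _ u2 _ u4)
  obtain ⟨m, hm, hU⟩ := main S hS
  refine ⟨m, hm, fun M hM => ?_⟩
  obtain ⟨ν, n1, n2, n3, n4⟩ := hU hM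
  exact ⟨ν, n1, n2, n3, n4⟩

end Abs

/-- a character is determined by the homology class -/
theorem ch_prod {g : ℕ} (χ : Ch g) (x : SurfaceGroup g) :
    χ x = ∏ j, (χ (gen j)) ^ (homologyClass x j) := by
  classical
  let F : SurfaceGroup g →* ℤˣ :=
    { toFun := fun x => ∏ j, (χ (gen j)) ^ (homologyClass x j)
      map_one' := by
        apply Finset.prod_eq_one
        intro j _
        rw [hc_one]; simp
      map_mul' := fun x y => by
        rw [← Finset.prod_mul_distrib]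
        apply Finset.prod_congr rfl
        intro j _
        rw [hc_mul, Pi.add_apply, zpow_add] }
  have hF : F = χ := by
    apply surface_ext
    intro j
    show ∏ k, (χ (gen k)) ^ (homologyClass (gen j) k) = _
    rw [Finset.prod_eq_single j]
    · rw [hc_gen, Pi.single_eq_same, zpow_one]
    · intro k _ hk
      rw [hc_gen, Pi.single_eq_of_ne hk, zpow_zero]
    · intro h; exact absurd (Finset.mem_univ _) h
  exact (DFunLike.congr_fun hF x).symm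

theorem ch_L6 {g : ℕ} (χ : Ch g) {φ : MulAut (SurfaceGroup g)} (hφ : φ ∈ L6 g)
    (x : SurfaceGroup g) : χ (φ x) = χ x := by
  rw [ch_prod χ (φ x), ch_prod χ x]
  apply Finset.prod_congr rfl
  intro j _
  obtain ⟨c, hc⟩ := hφ x j
  have e : homologyClass (φ x) j = homologyClass x j + 6 * c := by omega
  rw [e, zpow_add]
  have h2 : (χ (gen j)) ^ (6 * c) = 1 := by
    rw [zpow_mul]
    have h3 : (χ (gen j)) ^ (6 : ℤ) = 1 := by
      rcases Int.units_eq_one_or (χ (gen j)) with h | h <;> rw [h] <;> rfl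
    rw [h3, one_zpow]
  rw [h2, mul_one]

/-- the automorphisms acting trivially on the `χ`-part -/
def KT {g : ℕ} (χ : Ch g) : Subgroup (MulAut (SurfaceGroup g)) where
  carrier := {φ | φ ∈ L6 g ∧ Tr χ φ}
  one_mem' := ⟨one_mem _, fun f _ y _ => rfl⟩
  mul_mem' := by
    rintro φ ψ ⟨h1, h2⟩ ⟨h3, h4⟩
    refine ⟨mul_mem h1 h3, fun f hf y hy => ?_⟩
    rw [MulAut.mul_apply, h2 f hf (ψ y) (by rw [ch_L6 χ h3]; exact hy), h4 f hf y hy]
  inv_mem' := by
    rintro φ ⟨h1, h2⟩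
    refine ⟨inv_mem h1, fun f hf y hy => ?_⟩
    have h3 := h2 f hf (φ⁻¹ y) (by rw [ch_L6 χ (inv_mem h1)]; exact hy)
    rw [MulAut.apply_inv_self] at h3
    exact h3.symm

theorem KT_conj {g : ℕ} (χ : Ch g) (l : MulAut (SurfaceGroup g)) (hl : l ∈ L6 g)
    (k : MulAut (SurfaceGroup g)) (hk : k ∈ KT χ) : l * k * l⁻¹ ∈ KT χ := by
  refine ⟨mul_mem (mul_mem hl hk.1) (inv_mem hl), fun f hf y hy => ?_⟩
  rw [MulAut.mul_apply, MulAut.mul_apply]
  have h1 : Cr χ (fun x => f (l x)) := by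
    intro x z
    show f (l (x * z)) = _
    rw [map_mul, hf, ch_L6 χ hl]
  have h2 := hk.2 _ h1 (l⁻¹ y) (by rw [ch_L6 χ (inv_mem hl)]; exact hy)
  have h3 : f (l (l⁻¹ y)) = f y := by rw [MulAut.apply_inv_self]
  rw [← h3]
  exact h2

end Pool.Agent.Helper20.PS.Comb
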