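import Pool.Agent.Helper20.PR.Csp2
import Pool.Agent.Helper20.PR.Nc

set_option autoImplicit false

/-!
# The congruence subgroup property of `Sp_{2g}(ℤ)`, `g ≥ 2`

The library treats `g ≥ 3`. For `g = 2` the independence of the handle is obtained from the fact that
`Ga g q` is central modulo the group generated by the `q`-th powers of the transvections: its elements
are blocks for every splitting off of a hyperbolic plane.
-/

namespace Pool.Agent.Helper20.PS.Csp4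

open Pool.Agent.Q290.SC hiding om_ve_vf om_vf_ve om_ve_ve om_vf_vf
open Pool.Agent.H29R2.MG Pool.Agent.Helper20.PR Pool.Agent.Q247.SC

variable {g : ℕ}

theorem cen0 : S_CEN := Pool.Agent.Q238.SC.cen all_ind Pool.Agent.Q151.SC.blk

/-- `Y` acts trivially by conjugation on the level `q` subgroup modulo the transvections -/
def Good (q : ℤ) (Y : SpG g) : Prop := ∀ (Q : Type) [Group Q] (f : SpG g →* Q),
  (∀ (v : VV g) (t : ℤ), q ∣ t → f (T v t) = 1) → ∀ M ∈ Ga g q, f (Y * M * Y⁻¹) = f M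

theorem Good.mul {q : ℤ} {Y Z : SpG g} (hY : Good q Y) (hZ : Good q Z) : Good q (Y * Z) := by
  intro Q _ f hf M hM
  have e : Y * Z * M * (Y * Z)⁻¹ = Y * (Z * M * Z⁻¹) * Y⁻¹ := by group
  rw [e, hY Q f hf _ (Nc.ga_conj hM Z), hZ Q f hf M hM]

theorem Good.conj {q : ℤ} {Y : SpG g} (hY : Good q Y) (X : SpG g) : Good q (X * Y * X⁻¹) := by
  intro Q _ f hf M hM
  have h1 := hY Q (f.comp (MulAut.conj X).toMonoidHom) (fun v t ht => by
    show f (X * T v t * X⁻¹) = 1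
    rw [T_conj]
    exact hf _ _ ht) (X⁻¹ * M * X) (by
      have := Nc.ga_conj hM X⁻¹
      rwa [inv_inv] at this)
  have e1 : f (X * (Y * (X⁻¹ * M * X) * Y⁻¹) * X⁻¹) = f (X * (X⁻¹ * M * X) * X⁻¹) := h1
  have e2 : X * (Y * (X⁻¹ * M * X) * Y⁻¹) * X⁻¹ = X * Y * X⁻¹ * M * (X * Y * X⁻¹)⁻¹ := by group
  have e3 : X * (X⁻¹ * M * X) * X⁻¹ = M := by group
  rwa [e2, e3] at e1

/-- transvections of primitive vectors are good -/
theorem good_T (hg : 2 ≤ g) {q : ℤ} (hq : 2 ≤ q) {v v' : VV g} (hv : om v v' = 1) (t : ℤ) :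
    Good q (T v t) := by
  obtain ⟨X, -, hX⟩ := Pool.Agent.Q158.SC.tr g Finset.univ ⟨0, by omega⟩ (Finset.mem_univ _) v
    (Nc.sup_univ v) ⟨v', hv⟩
  obtain ⟨i, hi⟩ : ∃ i : Fin g, i = ⟨0, by omega⟩ := ⟨_, rfl⟩
  rw [← hi] at hX
  obtain ⟨k, hk⟩ : ∃ k : Fin g, k ≠ i := by
    have : Nontrivial (Fin g) := Fin.nontrivial_iff_two_le.2 hg
    exact exists_ne i
  have h1 : Good q (T (ve i : VV g) t) := by
    intro Q _ f hf M hM
    refine cen0 g q hq Q f hf M hM _ ⟨k, ?_, ?_⟩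
    · rw [ac_T, om_ve_ve, mul_zero, zero_smul, add_zero]
    · rw [ac_T, om_ve_vf_ne hk, mul_zero, zero_smul, add_zero]
  have h2 := h1.conj X⁻¹
  have h3 : X⁻¹ * T (ve i) t * X⁻¹⁻¹ = T v t := by
    rw [T_conj, ← hX, ac_self_inv]
  rwa [h3] at h2

theorem good_E (hg : 2 ≤ g) {q : ℤ} (hq : 2 ≤ q) {i j : Fin g} (hij : i ≠ j) (t : ℤ) :
    Good q (E (ve j) (vf i) t : SpG g) := by
  unfold E
  refine ((good_T hg hq (v' := vf j) ?_ _).mul (good_T hg hq (v' := vf j) ?_ _)).mul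
    (good_T hg hq (v' := -ve i) ?_ _)
  · rw [om_add_left, om_ve_vf, om_vf_vf, add_zero]
  · rw [om_ve_vf]
  · rw [om_neg_right, om_vf_ve, neg_neg]

/-- independence of the handle -/
theorem handle {q : ℤ} (hg : 2 ≤ g) (hq : 2 ≤ q) {Q : Type} [Group Q]
    (f : SpG g →* Q) (hf : ∀ (v : VV g) (t : ℤ), q ∣ t → f (T v t) = 1) (i j : Fin g)
    {a b c d : ℤ} (h : a * d - b * c = 1) (h1 : q ∣ a - 1) (h2 : q ∣ b)
    (h3 : q ∣ c) (h4 : q ∣ d - 1) : f (L j a b c d h) = f (L i a b c d h) := by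
  by_cases hij : i = j
  · rw [hij]
  obtain ⟨Y, hY⟩ : ∃ Y : SpG g, Y = E (ve j) (vf i) (-1) * E (ve i) (vf j) 1 *
    E (ve j) (vf i) (-1) := ⟨_, rfl⟩
  have o1 : om (ve j) (vf i : VV g) = 0 := om_ve_vf_ne hij
  have o2 : om (ve i) (vf j : VV g) = 0 := om_ve_vf_ne (Ne.symm hij)
  have acY : ∀ y, ac Y y = ac (E (ve j) (vf i) (-1)) (ac (E (ve i) (vf j) 1)
      (ac (E (ve j) (vf i) (-1)) y)) := fun y => by rw [hY, ac_mul, ac_mul]
  have yei : ac Y (ve i) = ve j := by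
    rw [acY, ac_E o1, ac_E o2, ac_E o1]
    simp only [om_add_right, om_smul_right, om_ve_ve, om_vf_vf, om_ve_vf, om_vf_ve, o1, o2,
      om_vf_ve_ne hij, om_vf_ve_ne (Ne.symm hij)]
    module
  have yej : ac Y (ve j) = -ve i := by
    rw [acY, ac_E o1, ac_E o2, ac_E o1]
    simp only [om_add_right, om_smul_right, om_ve_ve, om_vf_vf, om_ve_vf, om_vf_ve, o1, o2,
      om_vf_ve_ne hij, om_vf_ve_ne (Ne.symm hij)]
    module
  have yfi : ac Y (vf i) = vf j := by
    rw [acY, ac_E o1, ac_E o2, ac_E o1]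
    simp only [om_add_right, om_smul_right, om_ve_ve, om_vf_vf, om_ve_vf, om_vf_ve, o1, o2,
      om_vf_ve_ne hij, om_vf_ve_ne (Ne.symm hij)]
    module
  have yfj : ac Y (vf j) = -vf i := by
    rw [acY, ac_E o1, ac_E o2, ac_E o1]
    simp only [om_add_right, om_smul_right, om_ve_ve, om_vf_vf, om_ve_vf, om_vf_ve, o1, o2,
      om_vf_ve_ne hij, om_vf_ve_ne (Ne.symm hij)]
    module
  have yek : ∀ k, k ≠ i → k ≠ j → ac Y (ve k) = ve k := by
    intro k hki hkj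
    rw [acY, ac_E o1, ac_E o2, ac_E o1]
    simp only [om_add_right, om_smul_right, om_ve_ve, om_vf_ve_ne (Ne.symm hki),
      om_vf_ve_ne (Ne.symm hkj), om_vf_ve_ne hki, om_vf_ve_ne hkj]
    module
  have yfk : ∀ k, k ≠ i → k ≠ j → ac Y (vf k) = vf k := by
    intro k hki hkj
    rw [acY, ac_E o1, ac_E o2, ac_E o1]
    simp only [om_add_right, om_smul_right, om_vf_vf, om_ve_vf_ne hki, om_ve_vf_ne hkj,
      om_ve_vf_ne (Ne.symm hki), om_ve_vf_ne (Ne.symm hkj)]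
    module
  have e : Y * L i a b c d h * Y⁻¹ = L j a b c d h := by
    apply L_unique
    · rw [ac_mul, ac_mul, ac_inv_of yei, ac_L_e, ac_add, ac_smul, ac_smul, yei, yfi]
    · rw [ac_mul, ac_mul, ac_inv_of yfi, ac_L_f, ac_add, ac_smul, ac_smul, yei, yfi]
    · intro l hl
      by_cases hli : l = i
      · subst hli
        have : ac Y⁻¹ (ve l) = -ve j := by
          apply ac_inv_of
          rw [ac_neg, yej, neg_neg]
        rw [ac_mul, ac_mul, this, ac_neg, ac_L_ve (Ne.symm hl), ac_neg, yej, neg_neg]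
      · have h5 : ac Y (ve l) = ve l := yek l hli hl
        rw [ac_mul, ac_mul, ac_inv_of h5, ac_L_ve hli, h5]
    · intro l hl
      by_cases hli : l = i
      · subst hli
        have : ac Y⁻¹ (vf l) = -vf j := by
          apply ac_inv_of
          rw [ac_neg, yfj, neg_neg]
        rw [ac_mul, ac_mul, this, ac_neg, ac_L_vf (Ne.symm hl), ac_neg, yfj, neg_neg]
      · have h5 : ac Y (vf l) = vf l := yfk l hli hl
        rw [ac_mul, ac_mul, ac_inv_of h5, ac_L_vf hli, h5]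
  have hgood : Good q Y := by
    rw [hY]
    exact ((good_E hg hq hij _).mul (good_E hg hq (Ne.symm hij) _)).mul (good_E hg hq hij _)
  rw [← e]
  exact hgood Q f hf _ (L_Ga i h h1 h2 h3 h4)

theorem sym : ∀ (g : ℕ) (q : ℤ), 2 ≤ g → 2 ≤ q → ∀ (Q : Type) [Group Q] (f : SpG g →* Q),
    (∀ (v : VV g) (t : ℤ), q ∣ t → f (T v t) = 1) →
    ∃ s : ℤ → ℤ → Q,
      (∀ (i : Fin g) (a b c d : ℤ) (h : a * d - b * c = 1), q ∣ a - 1 → q ∣ b → q ∣ c →
        q ∣ d - 1 → f (L i a b c d h) = s a b) ∧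
      (∀ a b t : ℤ, q ∣ a - 1 → q ∣ b → IsCoprime a b → s (a + t * b) b = s a b) ∧
      (∀ a b t : ℤ, q ∣ a - 1 → q ∣ b → IsCoprime a b → q ∣ t → s a (b + t * a) = s a b) := by
  intro g q hg hq Q _ f hf
  have key : ∀ a b : ℤ, ∃ s : Q, ∀ (i : Fin g) (c d : ℤ) (h : a * d - b * c = 1), q ∣ a - 1 →
      q ∣ b → q ∣ c → q ∣ d - 1 → f (L i a b c d h) = s := by
    intro a b
    by_cases hex : ∃ (i : Fin g) (c d : ℤ) (_ : a * d - b * c = 1),
        q ∣ a - 1 ∧ q ∣ b ∧ q ∣ c ∧ q ∣ d - 1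
    · obtain ⟨i₀, c₀, d₀, h₀, h1, h2, h3, h4⟩ := hex
      refine ⟨f (L i₀ a b c₀ d₀ h₀), fun i c d h _ _ h7 h8 => ?_⟩
      rw [handle hg hq f hf i₀ i h h1 h2 h7 h8]
      exact row f hf i₀ h₀ h h3 h7
    · exact ⟨1, fun i c d h h1 h2 h3 h4 => absurd ⟨i, c, d, h, h1, h2, h3, h4⟩ hex⟩
  choose s hs using key
  have i₀ : Fin g := ⟨0, by omega⟩
  obtain ⟨k, hk⟩ : ∃ k : Fin g, k ≠ i₀ := by
    have : Nontrivial (Fin g) := Fin.nontrivial_iff_two_le.2 (by omega)
    exact exists_ne i₀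
  refine ⟨s, fun i a b c d h h1 h2 h3 h4 => hs a b i c d h h1 h2 h3 h4, ?_, ?_⟩
  · intro a b t h1 h2 hco
    obtain ⟨c, d, h, h3, h4⟩ := exists_row h1 h2 hco
    have h' : (a + t * b) * (d - t * b) - b * (c + t * d - t * (a + t * b)) = 1 := by
      linear_combination h
    have e : T (ve i₀) t * L i₀ a b c d h * (T (ve i₀) t)⁻¹ =
        L i₀ (a + t * b) b (c + t * d - t * (a + t * b)) (d - t * b) h' := by
      rw [← T_neg]
      apply L_unique
      · rw [ac_mul, ac_mul, ac_T _ (-t), om_self, mul_zero, zero_smul, add_zero, ac_L_e, ac_T,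
          om_add_right, om_smul_right, om_smul_right, om_self, om_ve_vf]
        module
      · rw [ac_mul, ac_mul, ac_T _ (-t), om_ve_vf, ac_add, ac_smul, ac_L_e, ac_L_f, ac_T]
        simp only [om_add_right, om_smul_right, om_self, om_ve_vf]
        module
      · intro l hl
        rw [ac_mul, ac_mul, ac_T _ (-t), om_ve_ve, mul_zero, zero_smul, add_zero, ac_L_ve hl,
          ac_T, om_ve_ve, mul_zero, zero_smul, add_zero]
      · intro l hl
        rw [ac_mul, ac_mul, ac_T _ (-t), om_ve_vf_ne hl, mul_zero, zero_smul, add_zero,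
          ac_L_vf hl, ac_T, om_ve_vf_ne hl, mul_zero, zero_smul, add_zero]
    rw [← hs a b i₀ c d h h1 h2 h3 h4,
      ← hs (a + t * b) b i₀ _ _ h' ?_ h2 ?_ ?_, ← e]
    · refine cen0 g q hq Q f hf _ (L_Ga i₀ h h1 h2 h3 h4) _ ⟨k, ?_, ?_⟩
      · rw [ac_T, om_ve_ve, mul_zero, zero_smul, add_zero]
      · rw [ac_T, om_ve_vf_ne hk, mul_zero, zero_smul, add_zero]
    · have : a + t * b - 1 = (a - 1) + t * b := by ring
      rw [this]
      exact dvd_add h1 (h2.mul_left _)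
    · have : c + t * d - t * (a + t * b) = c + t * (d - 1) - t * (a - 1) - t * t * b := by ring
      rw [this]
      exact dvd_sub (dvd_sub (dvd_add h3 (h4.mul_left _)) (h1.mul_left _)) (h2.mul_left _)
    · have : d - t * b - 1 = (d - 1) - t * b := by ring
      rw [this]
      exact dvd_sub h4 (h2.mul_left _)
  · intro a b t h1 h2 hco ht
    obtain ⟨c, d, h, h3, h4⟩ := exists_row h1 h2 hco
    have h' : a * (d + t * c) - (b + t * a) * c = 1 := by linear_combination h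
    have e : T (vf i₀) (-t) * L i₀ a b c d h = L i₀ a (b + t * a) c (d + t * c) h' := by
      apply L_unique
      · rw [ac_mul, ac_L_e, ac_T]
        simp only [om_add_right, om_smul_right, om_self, om_vf_ve]
        module
      · rw [ac_mul, ac_L_f, ac_T]
        simp only [om_add_right, om_smul_right, om_self, om_vf_ve]
        module
      · intro l hl
        rw [ac_mul, ac_L_ve hl, ac_T, om_vf_ve_ne hl, mul_zero, zero_smul, add_zero]
      · intro l hl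
        rw [ac_mul, ac_L_vf hl, ac_T, om_vf_vf, mul_zero, zero_smul, add_zero]
    rw [← hs a b i₀ c d h h1 h2 h3 h4,
      ← hs a (b + t * a) i₀ _ _ h' h1 ?_ h3 ?_, ← e, map_mul, hf _ _ ((dvd_neg).2 ht), one_mul]
    · exact dvd_add h2 (ht.mul_right _)
    · have : d + t * c - 1 = (d - 1) + t * c := by ring
      rw [this]
      exact dvd_add h4 (h3.mul_left _)

/-- the level `q` subgroup of `Sp_{2g}(ℤ)`, `g ≥ 2`, is generated by the `q`-th powers of the
transvections -/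
theorem csp (hNUM : S_NUM2) : ∀ (g : ℕ), 2 ≤ g → ∀ (Q : Type) [Group Q] (f : SpG g →* Q) (q : ℤ),
  1 ≤ q → 4 ∣ q → (∀ (v : VV g) (t : ℤ), q ∣ t → f (T v t) = 1) → ∀ M ∈ Ga g q, f M = 1 := by
  intro g hg Q _ f q hq1 hq4 hT
  have hq2 : (2 : ℤ) ≤ q := by
    obtain ⟨k, hk⟩ := hq4
    omega
  obtain ⟨s, hs1, hs2, hs3⟩ := sym g q hg hq2 Q f hT
  have hcomp : ∀ a b : ℤ, q ∣ a - 1 → q ∣ b → IsCoprime a b →
      ∃ c d : ℤ, a * d - b * c = 1 ∧ q ∣ c ∧ q ∣ d - 1 := by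
    rintro a b ha hb ⟨x, y, hxy⟩
    refine ⟨y * (a - 1), x + y * b, by linear_combination hxy, Dvd.dvd.mul_left ha _, ?_⟩
    have h5 : x + y * b - 1 = (-x) * (a - 1) := by linear_combination hxy
    rw [h5]
    exact Dvd.dvd.mul_left ha _
  have hij : (⟨0, by omega⟩ : Fin g) ≠ ⟨1, by omega⟩ := by
    intro h
    have := congrArg Fin.val h
    simp at this
  obtain ⟨i, j, hij⟩ : ∃ i j : Fin g, i ≠ j := ⟨_, _, hij⟩
  have hs10 : s 1 0 = 1 := by
    rw [← hs1 i 1 0 0 1 (by norm_num) (by simp) (dvd_zero _) (dvd_zero _) (by simp)]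
    have h1 : L i 1 0 0 1 (by norm_num) = 1 := by
      apply sp_ext
      intro y
      show y + y (Sum.inl i) • ((1 - 1 : ℤ) • ve i + (0 : ℤ) • vf i) +
        y (Sum.inr i) • ((0 : ℤ) • ve i + (1 - 1 : ℤ) • vf i) = y
      simp
    rw [h1, map_one]
  have h3 : ∀ a w : ℤ, q ∣ a - 1 → q ∣ w → IsCoprime a w →
      ∃ c : Q, ∀ b : ℤ, q ∣ b → IsCoprime a b → s a b = c * s a (b * w ^ 2) := by
    intro a w ha hw haw
    obtain ⟨u, d', h', hu, hd'⟩ := hcomp a w ha hw haw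
    have h'' : a * d' - u * w = 1 := by linear_combination h'
    refine ⟨f (Lv i j hij a u w d' h''), fun b hb hab => ?_⟩
    obtain ⟨c, d, h, hc, hd⟩ := hcomp a b ha hb hab
    obtain ⟨c₂, d₂, h₂, hc₂, hd₂, e⟩ :=
      all_key g _ Q f hT i j hij a b c d u w d' h h'' ha hb hc hd hu hw hd'
    rw [hs1 i a b c d h ha hb hc hd,
      hs1 j a (b * w ^ 2) c₂ d₂ h₂ ha (Dvd.dvd.mul_right hb _) hc₂ hd₂] at e
    exact e
  have hall := hNUM Q q hq1 hq4 s hs2 hs3 h3 hs10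
  intro M hM
  obtain ⟨X, hX, hfx⟩ := all_ind g _ hq2 i Finset.univ (Finset.mem_univ _) M hM
    (fun k hk => absurd (Finset.mem_univ k) hk)
  have hker : KS q (Finset.univ : Finset (Fin g)) ≤ f.ker := by
    rw [KS, Subgroup.closure_le]
    rintro _ ⟨v, t, -, ht, rfl⟩
    exact hT v t ht
  have hfX : f X = 1 := hker hX
  obtain ⟨a, b, c, d, h, e, hdiv⟩ := Pool.Agent.Q151.SC.blk g i (X * M) hfx
  obtain ⟨h1, h2, h4, h5⟩ := hdiv _ (mul_mem (KS_Ga hX) hM)
  have hab : IsCoprime a b := ⟨d, -c, by linear_combination h⟩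
  calc f M = f X * f M := by rw [hfX, one_mul]
    _ = f (X * M) := (map_mul f X M).symm
    _ = 1 := by rw [e, hs1 i a b c d h h1 h2 h4 h5, hall a b h1 h2 hab]

end Pool.Agent.Helper20.PS.Csp4
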