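import Pool.Agent.Helper20.PR.Fin
import Pool.Agent.Helper20.PS.C0
import Pool.Agent.Helper20.PS.C1

set_option autoImplicit false

/-!
# The congruence subgroup property over the covers with elementary abelian 2-groups, genus `≥ 3`
-/

namespace Pool.Agent.Helper20.PS.Fin

open Pool.Agent.H29R2.MG Pool.Agent.Q290.SC
open Pool.Agent.H798R3.MG Pool.Agent.TH35.MG Pool.Agent.Q290.MG
open Pool.Agent.Helper20.PR Pool.Agent.Helper20.PR.Star Pool.Agent.Helper20.PR.StarMain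
open Pool.Agent.R569.CS (act mem_act act_normal act_finiteIndex act_mono csp_all CSP lay)

/-- as `S_STAR`, for `n ≥ 2` -/
def S_STAR' : Prop := ∀ (n : ℕ), 2 ≤ n → ∀ V : Subgroup (MulAut (SurfaceGroup (n + 1))),
  V.FiniteIndex →
  (∀ φ : MulAut (SurfaceGroup (n + 1)), (∀ x, φ x * x⁻¹ ∈ G2 (n + 1)) →
    (∀ x ∈ G2 (n + 1), φ x * x⁻¹ ∈ ⁅G2 (n + 1), G2 (n + 1)⁆) → φ ∈ V) →
  ∃ K : Subgroup (SurfaceGroup (n + 1)), K.Characteristic ∧ K.FiniteIndex ∧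
    ∀ φ : MulAut (SurfaceGroup (n + 1)), (∀ x, φ x * x⁻¹ ∈ K) → φ ∈ V

theorem star (hT : S_TAU) (hcr : S_CR0) (hact : S_ACT) (htr : S_TRANS) (hdeep : S_DEEP)
    (hproj : S_PROJ) (htor : S_TOR) (hc0 : C0.S_C0') (hc1 : S_C1) : S_STAR' := by
  classical
  intro n hn V hV hVT
  obtain ⟨t, ht⟩ := hT n
  obtain ⟨C, hCc, hCf, hC⟩ := htor (n + 1)
  have hL6n := L6_normal (n + 1)
  let P : Subgroup (MulAut (SurfaceGroup (n + 1))) := act (MonoidHom.id _) C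
  have hPf : P.FiniteIndex := act_finiteIndex (MonoidHom.id _) C
  have hN0 : (V ⊓ P).FiniteIndex := inferInstance
  let N : Subgroup (MulAut (SurfaceGroup (n + 1))) := (V ⊓ P).normalCore
  have hNn : N.Normal := inferInstanceAs (V ⊓ P).normalCore.Normal
  have hNf : N.FiniteIndex := inferInstanceAs (V ⊓ P).normalCore.FiniteIndex
  have hNle : N ≤ V ⊓ P := Subgroup.normalCore_le _
  have hfin : Finite (Ch (n + 1)) := inferInstance
  let _ : Fintype (Ch (n + 1)) := Fintype.ofFinite _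
  have claim : ∀ χ : Ch (n + 1), ∃ K : Subgroup (SurfaceGroup (n + 1)), K.Characteristic ∧
      K.FiniteIndex ∧ ∀ φ : MulAut (SurfaceGroup (n + 1)), (∀ x, φ x * x⁻¹ ∈ K) →
        ∃ ν ∈ N, ν ∈ L6 (n + 1) ∧ (∀ χ', χ' ≠ χ → Tr χ' ν) ∧ Tr χ (ν⁻¹ * φ) := by
    intro χ
    by_cases hχ : χ = 1
    · subst hχ
      obtain ⟨m, hm, h1⟩ := hc1 (n + 1) (by omega) N hNn hNf (Finset.univ.erase 1)
        (Finset.notMem_erase _ _)
      obtain ⟨K, hK1, hK2, hK3⟩ := hdeep n t ht m hm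
      refine ⟨K, hK1, hK2, fun φ hφ => ?_⟩
      obtain ⟨hφ6, -, h3⟩ := hK3 φ hφ
      obtain ⟨M, hM⟩ := L6_act hφ6
      obtain ⟨ν, hν, hν6, h4, h5⟩ := h1 M (h3 M hM)
      refine ⟨ν, hν, hν6, fun χ' hχ' => h4 χ' (Finset.mem_erase.2 ⟨hχ', Finset.mem_univ _⟩), ?_⟩
      apply Tr_of_Act
      have := h5.inv.mul hM
      rwa [inv_mul_cancel] at this
    · obtain ⟨θ, hθ⟩ := htr n (by omega) χ hχ
      obtain ⟨m, hm, h1⟩ := hc0 n hn t ht N hNn hNf (Finset.univ.erase (chi0 n))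
        (Finset.notMem_erase _ _)
      obtain ⟨K, hK1, hK2, hK3⟩ := hdeep n t ht m hm
      refine ⟨K, hK1, hK2, fun φ hφ => ?_⟩
      obtain ⟨hφ6, h3, -⟩ := hK3 (θ⁻¹ * φ * θ) (triv_conj hK1 hφ θ)
      obtain ⟨M, hM⟩ := hact n t ht _ hφ6
      obtain ⟨ν, hν, hν6, h4, h5⟩ := h1 M (h3 M hM)
      refine ⟨θ * ν * θ⁻¹, hNn.conj_mem ν hν θ, hL6n.conj_mem ν hν6 θ, ?_, ?_⟩
      · intro χ' hχ'
        refine (Tr_trans (χ := χ')
          (χ' := χ'.comp (θ : SurfaceGroup (n + 1) →* SurfaceGroup (n + 1)))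
          (fun x => rfl)).2 (h4 _ (Finset.mem_erase.2 ⟨?_, Finset.mem_univ _⟩))
        intro h6
        apply hχ'
        apply MonoidHom.ext
        intro x
        have h7 := DFunLike.congr_fun h6 (θ⁻¹ x)
        have h8 : χ' (θ (θ⁻¹ x)) = chi0 n (θ⁻¹ x) := h7
        rw [← hθ, MulAut.apply_inv_self] at h8
        exact h8
      · have e : (θ * ν * θ⁻¹)⁻¹ * φ = θ * (ν⁻¹ * (θ⁻¹ * φ * θ)) * θ⁻¹ := by group
        rw [e]
        refine (Tr_trans hθ).2 ?_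
        have h6 : ν⁻¹ * (θ⁻¹ * φ * θ) ∈ L6 (n + 1) :=
          (L6 _).mul_mem ((L6 _).inv_mem hν6) hφ6
        refine ((hcr n t ht).2.2 _ h6).2 ?_
        have h7 := A0_mul hφ6 (A0_inv hν6 h5) hM
        rwa [inv_mul_cancel] at h7
  choose K hK1 hK2 hK3 using claim
  obtain ⟨K', hK1', hK2', hK3'⟩ := hdeep n t ht 1 le_rfl
  have hKf : (⨅ χ, K χ).FiniteIndex := Subgroup.finiteIndex_iInf hK2
  refine ⟨((⨅ χ, K χ) ⊓ K') ⊓ C, char_inf (char_inf (char_iInf hK1) hK1') hCc, inferInstance, ?_⟩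
  intro φ hφ
  have hφ6 : φ ∈ L6 (n + 1) := (hK3' φ fun x => (hφ x).1.2).1
  have hφC : ∀ x, φ x * x⁻¹ ∈ C := fun x => (hφ x).2
  have hφK : ∀ χ x, φ x * x⁻¹ ∈ K χ := fun χ x => (Subgroup.mem_iInf.1 (hφ x).1.1) χ
  obtain ⟨ν, hν, hνK⟩ := glue (L := L6 (n + 1)) Finset.univ (fun χ : Ch (n + 1) => KK χ)
    KK_normal (N.subgroupOf (L6 (n + 1))) ⟨φ, hφ6⟩ (by
      intro χ _
      obtain ⟨ν, h1, h2, h3, h4⟩ := hK3 χ φ (hφK χ)
      exact ⟨⟨ν, h2⟩, h1, fun χ' _ hχ' => h3 χ' hχ', h4⟩)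
  have hνN : ν.1 ∈ N := hν
  have hψ6 : ν.1⁻¹ * φ ∈ L6 (n + 1) := (L6 _).mul_mem ((L6 _).inv_mem ν.2) hφ6
  have hψT : ∀ χ : Ch (n + 1), Tr χ (ν.1⁻¹ * φ) := fun χ => hνK χ (Finset.mem_univ _)
  have hψC : ν.1⁻¹ * φ ∈ P := P.mul_mem (P.inv_mem (hNle hνN).2) hφC
  have hψG : ∀ x, (ν.1⁻¹ * φ) x * x⁻¹ ∈ G2 (n + 1) := by
    intro x χ
    rw [map_mul, map_inv, L6_chi hψ6, mul_inv_cancel]
  have hψV : ν.1⁻¹ * φ ∈ V := by
    apply hVT _ hψG
    intro x hx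
    exact hC _ (hψC x) (hψG x) (hproj (n + 1) _ hψ6 hψT x hx)
  have h9 := V.mul_mem (hNle hνN).1 hψV
  rwa [mul_inv_cancel_left] at h9

theorem star_main : S_STAR' := by
  have hact : S_ACT := Act.main Cr0.main
  exact star Tau.main Cr0.main hact Trans.main (Deep.main Cr0.main) Proj.main Tor.main
    (C0.main Nc4.main Real.main Cr0.main (P1.main Tau.ext Cr0.main hact)
      (P1t.main Tau.ext Cr0.main hact Trans.main))
    (C1.main Nc4.main P2.main)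

/-- the theorem for the group `SurfaceGroup` -/
theorem aut {n : ℕ} (hn : 2 ≤ n) (K : Subgroup (SurfaceGroup (n + 1)))
    (hK : ∀ x : SurfaceGroup (n + 1), x ^ 2 ∈ K) (c : ℕ) (C : Subgroup (SurfaceGroup (n + 1)))
    (hC : C.Characteristic) (hCf : C.FiniteIndex) (H : Subgroup (MulAut (SurfaceGroup (n + 1))))
    (hH : H.FiniteIndex)
    (h : ∀ φ : MulAut (SurfaceGroup (n + 1)), (∀ x, φ x * x⁻¹ ∈ C) →
      (∀ x, φ x * x⁻¹ ∈ K.lowerCentralSeries c) → φ ∈ H) :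
    ∃ L : Subgroup (SurfaceGroup (n + 1)), L.Characteristic ∧ L.FiniteIndex ∧
      ∀ φ : MulAut (SurfaceGroup (n + 1)), (∀ x, φ x * x⁻¹ ∈ L) → φ ∈ H := by
  have hGc : (G2 (n + 1)).Characteristic := G2_char _
  have hGf : (G2 (n + 1)).FiniteIndex := G2_fi _
  have hle : (G2 (n + 1)).lowerCentralSeries c ≤ K.lowerCentralSeries c :=
    Subgroup.lowerCentralSeries_mono c (PR.Fin.G2_le K hK)
  have hcsp : CSP (MonoidHom.id (MulAut (SurfaceGroup (n + 1))))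
      ((G2 (n + 1)).lowerCentralSeries c) := by
    apply csp_all
    intro V hV hVl
    obtain ⟨L, h1, h2, h3⟩ := star_main n hn V hV (fun φ h1 h2 => hVl ⟨h1, h2⟩)
    exact ⟨L, h1, h2, fun φ hφ => h3 φ hφ⟩
  have hRc : ((G2 (n + 1)).lowerCentralSeries c).Characteristic := inferInstance
  have hA : (act (MonoidHom.id (MulAut (SurfaceGroup (n + 1)))) C).FiniteIndex :=
    act_finiteIndex _ C
  have hU : (act (MonoidHom.id (MulAut (SurfaceGroup (n + 1))))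
      ((G2 (n + 1)).lowerCentralSeries c)).Normal := act_normal _ _
  have hfi : ((H ⊓ act (MonoidHom.id _) C) ⊔ act (MonoidHom.id (MulAut (SurfaceGroup (n + 1))))
      ((G2 (n + 1)).lowerCentralSeries c)).FiniteIndex :=
    Subgroup.finiteIndex_of_le (H := H ⊓ act (MonoidHom.id _) C) le_sup_left
  obtain ⟨L, hL1, hL2, hL3⟩ := hcsp _ hfi le_sup_right
  refine ⟨C ⊓ L, StarMain.char_inf hC hL1, inferInstance, ?_⟩
  intro a ha
  have ha1 : a ∈ act (MonoidHom.id (MulAut (SurfaceGroup (n + 1)))) C := fun x => (ha x).1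
  have ha2 : a ∈ act (MonoidHom.id (MulAut (SurfaceGroup (n + 1)))) L := fun x => (ha x).2
  have ha3 := hL3 ha2
  rw [← SetLike.mem_coe, Subgroup.mul_normal] at ha3
  obtain ⟨ν, hν, ι, hι, rfl⟩ := ha3
  have h3 : ι ∈ act (MonoidHom.id (MulAut (SurfaceGroup (n + 1)))) C := by
    have := Subgroup.mul_mem _ (Subgroup.inv_mem _ hν.2) ha1
    rwa [inv_mul_cancel_left] at this
  exact H.mul_mem hν.1 (h ι (fun x => h3 x) fun x => hle (hι x))

end Pool.Agent.Helper20.PS.Fin
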